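import Pool.Agent.H34.HigmanAlg

/-!
# MP_b22f0d_al: Higman's nilpotency bound `h(11)` is at least `31`, while `(11 ^ 2 - 1) / 4 = 30`

The witness is the 32-dimensional Lie algebra over the field with two elements of
`Pool.Agent.H34.HigmanAlg`.
-/

set_option autoImplicit false

universe u

namespace Pool.Agent.Results.MP_b22f0d_al.ClassBoundEleven

/-- The lower central series of a Lie ring `L`: `gamma L 1 = L` (and `gamma L 0 = L` by
convention), and `gamma L (k + 1)` is the additive subgroup generated by all brackets `⁅x, y⁆` with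
`x ∈ gamma L k` and `y ∈ L`, for `k ≥ 1`. -/
def gamma (L : Type u) [LieRing L] : ℕ → AddSubgroup L
  | 0 => ⊤
  | 1 => ⊤
  | k + 2 => AddSubgroup.closure {z : L | ∃ x ∈ gamma L (k + 1), ∃ y : L, ⁅x, y⁆ = z}

/-- `L` is the (internal) direct sum of the additive subgroups `Lg i`, `i ∈ ℤ/n`, and
`[Lg i, Lg j] ⊆ Lg (i + j)`. -/
structure IsGraded (n : ℕ) (L : Type u) [LieRing L] (Lg : ZMod n → AddSubgroup L) : Prop where
  internal : DirectSum.IsInternal Lg
  bracket_mem : ∀ i j : ZMod n, ∀ x ∈ Lg i, ∀ y ∈ Lg j, ⁅x, y⁆ ∈ Lg (i + j)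

/-- Every `ℤ/p`-graded Lie ring `L` with `L_0 = 0` is nilpotent of class at most `c`:
`gamma L (c + 1) = 0`. Higman's number `h(p)` is the least such `c`. -/
def IsHigmanBound (p c : ℕ) : Prop :=
  ∀ (L : Type u) [LieRing L] (Lg : ZMod p → AddSubgroup L),
    IsGraded p L Lg → Lg 0 = ⊥ → gamma L (c + 1) = ⊥

open Pool.Agent.H34

private theorem foldl_mem (L : Type u) [LieRing L] (l : List L) :
    ∀ (k : ℕ) (x : L), x ∈ gamma L (k + 1) →
      List.foldl (fun a b => ⁅a, b⁆) x l ∈ gamma L (k + 1 + l.length) := by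
  induction l with
  | nil =>
    intro k x hx
    exact hx
  | cons a l ih =>
    intro k x hx
    rw [List.foldl_cons, List.length_cons]
    have h1 : ⁅x, a⁆ ∈ gamma L (k + 1 + 1) := AddSubgroup.subset_closure ⟨x, hx, a, rfl⟩
    have h2 := ih (k + 1) ⁅x, a⁆ h1
    have h3 : k + 1 + (l.length + 1) = k + 1 + 1 + l.length := by omega
    rw [h3]
    exact h2

private abbrev UA : Type u := ULift.{u} A

private noncomputable instance : LieRing UA.{u} where
  bracket x y := ⟨⁅x.down, y.down⁆⟩
  add_lie x y z := by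
    apply ULift.down_injective
    exact add_lie x.down y.down z.down
  lie_add x y z := by
    apply ULift.down_injective
    exact lie_add x.down y.down z.down
  lie_self x := by
    apply ULift.down_injective
    exact lie_self x.down
  leibniz_lie x y z := by
    apply ULift.down_injective
    exact leibniz_lie x.down y.down z.down

private def ugr (d : ZMod 11) : AddSubgroup UA.{u} :=
  (gr d).comap (AddEquiv.ulift : UA.{u} ≃+ A).toAddMonoidHom

private theorem mem_ugr (d : ZMod 11) (v : UA.{u}) : v ∈ ugr d ↔ v.down ∈ gr d := Iff.rfl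

private theorem ucoe_apply (x : DirectSum (ZMod 11) fun d => ugr.{u} d) (i : Fin 32) :
    (DirectSum.coeAddMonoidHom ugr.{u} x).down i = (x (dg i.val) : UA.{u}).down i := by
  induction x using DirectSum.induction_on with
  | zero =>
    rw [map_zero]
    rfl
  | of d v =>
    rw [DirectSum.coeAddMonoidHom_of]
    by_cases h : d = dg i.val
    · subst h
      rw [DirectSum.of_eq_same]
    · rw [DirectSum.of_eq_of_ne _ _ _ (Ne.symm h)]
      by_contra h2
      exact h (v.2 i h2).symm
  | add x y hx hy =>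
    rw [map_add, DirectSum.add_apply]
    show (DirectSum.coeAddMonoidHom ugr.{u} x).down i + (DirectSum.coeAddMonoidHom ugr.{u} y).down i =
      (x (dg i.val) : UA.{u}).down i + (y (dg i.val) : UA.{u}).down i
    rw [hx, hy]

private theorem ugr_internal : DirectSum.IsInternal ugr.{u} := by
  constructor
  · rw [injective_iff_map_eq_zero]
    intro x hx
    apply DFinsupp.ext
    intro d
    apply Subtype.ext
    apply ULift.down_injective
    funext i
    by_contra h
    have hd := (x d).2 i h
    have h2 := ucoe_apply x i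
    rw [hx, hd] at h2
    exact h h2.symm
  · intro v
    refine ⟨∑ d : ZMod 11, DirectSum.of (fun d => ugr.{u} d) d ⟨⟨pr d v.down⟩, pr_mem d v.down⟩, ?_⟩
    rw [map_sum]
    simp only [DirectSum.coeAddMonoidHom_of]
    apply ULift.down_injective
    have h1 : (∑ d : ZMod 11, (⟨pr d v.down⟩ : UA.{u})).down = ∑ d : ZMod 11, pr d v.down :=
      map_sum (AddEquiv.ulift : UA.{u} ≃+ A) (fun d => (⟨pr d v.down⟩ : UA.{u})) Finset.univ
    rw [h1]
    funext i
    rw [Pool.Agent.H34.sum_apply]
    simp [pr]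

private theorem ufoldl (l : List A) : ∀ x : A,
    List.foldl (fun a b : UA.{u} => ⁅a, b⁆) ⟨x⟩ (l.map ULift.up) =
      ⟨List.foldl (fun a b : A => ⁅a, b⁆) x l⟩ := by
  induction l with
  | nil =>
    intro x
    rfl
  | cons a l ih =>
    intro x
    rw [List.map_cons, List.foldl_cons, List.foldl_cons]
    exact ih ⁅x, a⁆

/-- The witness: a graded Lie ring with trivial component of degree zero and `gamma _ 31 ≠ 0`. -/
private theorem witness : IsGraded 11 UA.{u} ugr.{u} ∧ ugr.{u} 0 = ⊥ ∧ gamma UA.{u} 31 ≠ ⊥ := by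
  refine ⟨⟨ugr_internal, fun i j x hx y hy => gr_mul i j x.down hx y.down hy⟩, ?_, ?_⟩
  · rw [eq_bot_iff]
    intro v hv
    rw [AddSubgroup.mem_bot]
    apply ULift.down_injective
    have h1 : v.down ∈ gr 0 := hv
    rw [gr_zero, AddSubgroup.mem_bot] at h1
    exact h1
  · intro hbot
    have h1 := foldl_mem UA.{u} ((List.ofFn (fun k : Fin 30 => ent (k.val + 1))).map ULift.up) 0
      ⟨ent 0⟩ trivial
    rw [ufoldl, List.length_map, List.length_ofFn] at h1
    have h2 : 0 + 1 + 30 = 31 := rfl
    rw [h2, hbot, AddSubgroup.mem_bot] at h1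
    exact long_ne (congrArg ULift.down h1)

private theorem gamma_succ_le (L : Type u) [LieRing L] (k : ℕ) :
    gamma L (k + 2) ≤ gamma L (k + 1) := by
  induction k with
  | zero => exact le_top
  | succ k ih =>
    refine AddSubgroup.closure_mono ?_
    rintro z ⟨x, hx, y, rfl⟩
    exact ⟨x, ih hx, y, rfl⟩

private theorem gamma_anti (L : Type u) [LieRing L] (k j : ℕ) :
    gamma L (k + j + 1) ≤ gamma L (k + 1) := by
  induction j with
  | zero => exact le_rfl
  | succ j ih => exact (gamma_succ_le L (k + j)).trans ih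

/-- **Higman's bound for the prime 11 is at least 31**, and so it is not true that
`h(p) = (p ^ 2 - 1) / 4` for all odd primes `p`: `(11 ^ 2 - 1) / 4 = 30`. -/
theorem result :
    (∀ c : ℕ, IsHigmanBound.{u} 11 c → 31 ≤ c) ∧
      ¬ ∀ p : ℕ, p.Prime → 2 < p →
        IsLeast {c : ℕ | IsHigmanBound.{u} p c} ((p ^ 2 - 1) / 4) := by
  have key : ∀ c : ℕ, IsHigmanBound.{u} 11 c → 31 ≤ c := by
    intro c hc
    by_contra hlt
    obtain ⟨h1, h2, h3⟩ := witness.{u}
    have h4 := hc UA.{u} ugr.{u} h1 h2
    obtain ⟨j, hj⟩ : ∃ j, 30 = c + j := ⟨30 - c, by omega⟩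
    have h5 := gamma_anti UA.{u} c j
    rw [← hj, h4] at h5
    exact h3 (le_bot_iff.1 h5)
  refine ⟨key, fun h => ?_⟩
  have h1 := key _ (h 11 (by norm_num) (by norm_num)).1
  norm_num at h1

end Pool.Agent.Results.MP_b22f0d_al.ClassBoundEleven
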